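import Mathlib
import Pool.Agent.P.MP_b50a78_co.Sh.Main

set_option autoImplicit false

namespace Pool.Agent.Results.MP_b50a78_co.SharpThree

/-- `F` is a two-dimensional face of the convex set `K`: the set of maximisers on `K` of a nonzero
linear functional, of affine dimension two. -/
def IsFace (K F : Set (EuclideanSpace ℝ (Fin 3))) : Prop :=
  ∃ l : EuclideanSpace ℝ (Fin 3) →L[ℝ] ℝ, l ≠ 0 ∧ F = {x | x ∈ K ∧ ∀ y ∈ K, l y ≤ l x} ∧
    Module.finrank ℝ (vectorSpan ℝ F) = 2

/-- `p` is augmentable by `m`: some three-dimensional convex polytope with exactly three faces at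
every vertex has `m` hexagonal faces and `p k` faces with `k` vertices for every `k ≠ 6`. -/
def Augmentable (p : ℕ → ℕ) (m : ℕ) : Prop :=
  ∃ P : Finset (EuclideanSpace ℝ (Fin 3)),
    (interior (convexHull ℝ (↑P : Set (EuclideanSpace ℝ (Fin 3))))).Nonempty ∧
    (∀ v ∈ Set.extremePoints ℝ (convexHull ℝ (↑P : Set (EuclideanSpace ℝ (Fin 3)))),
      {F | IsFace (convexHull ℝ (↑P : Set (EuclideanSpace ℝ (Fin 3)))) F ∧ v ∈ F}.ncard = 3) ∧
    (∀ k : ℕ, {F | IsFace (convexHull ℝ (↑P : Set (EuclideanSpace ℝ (Fin 3)))) F ∧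
      (Set.extremePoints ℝ F).ncard = k}.ncard = if k = 6 then m else p k)

/-- One face with `d ≥ 7` sides, at most one face with four or five sides, triangles: the
admissible numbers of hexagons, and the exact threshold. -/
theorem result (p : ℕ → ℕ) (d S : ℕ) (hd : 7 ≤ d) (h1 : p d = 1)
    (h0 : ∀ k : ℕ, k ≠ 3 → k ≠ 4 → k ≠ 5 → k ≠ d → p k = 0) (h45 : p 4 + p 5 ≤ 1)
    (hE : 3 * p 3 + 2 * p 4 + p 5 = 12 + (d - 6)) (hS : S = p 3 + p 4 + p 5 + 1) :
    (∀ m : ℕ, Augmentable p m ↔ m % 2 = S % 2 ∧ 3 * S + 2 * (d % 2) ≤ m + 14 + 2 * p 5) ∧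
    ∃ M : ℕ, M + 15 + 2 * p 5 = 3 * S + 2 * (d % 2) ∧
      IsLeast {M : ℕ | ∀ n : ℕ, M ≤ n → (∃ m : ℕ, m % 2 = n % 2 ∧ Augmentable p m) →
        Augmentable p n} M := by
  have key : ∀ m : ℕ,
      Augmentable p m ↔ m % 2 = S % 2 ∧ 3 * S + 2 * (d % 2) ≤ m + 14 + 2 * p 5 := by
    intro m
    rw [hS, ← Pool.Agent.P.MP_b50a78_co.sharp h45 hd (by omega) m]
    have e : (fun k => if k = 6 then m else p k) = fun k => if k = 6 then m else
        if k = 3 then p 3 else if k = 4 then p 4 else if k = 5 then p 5 else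
          if k = d then 1 else 0 := by
      funext k
      split_ifs with a b c e f
      · rfl
      · rw [b]
      · rw [c]
      · rw [e]
      · rw [f, h1]
      · exact h0 k b c e f
    rw [← e]
    exact Iff.rfl
  refine ⟨key, 3 * S + 2 * (d % 2) - (15 + 2 * p 5), by omega, ?_, ?_⟩
  · rintro n hn ⟨m, hm, h⟩
    rw [key] at h ⊢
    omega
  · intro M hM
    by_contra hlt
    have := hM (3 * S + 2 * (d % 2) - (16 + 2 * p 5)) (by omega)
      ⟨3 * S, by omega, (key _).2 (by omega)⟩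
    rw [key] at this
    omega

end Pool.Agent.Results.MP_b50a78_co.SharpThree
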