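import Mathlib
import Pool.Agent.P.MP_b50a78_co.Fin

set_option autoImplicit false

namespace Pool.Agent.Results.MP_b50a78_co.ThreeS

/-- `F` is a two-dimensional face of the convex set `K`: the set of maximisers on `K` of a nonzero
linear functional, of affine dimension two. -/
def IsFace (K F : Set (EuclideanSpace ℝ (Fin 3))) : Prop :=
  ∃ l : EuclideanSpace ℝ (Fin 3) →L[ℝ] ℝ, l ≠ 0 ∧ F = {x | x ∈ K ∧ ∀ y ∈ K, l y ≤ l x} ∧
    Module.finrank ℝ (vectorSpan ℝ F) = 2

/-- `p` is augmentable by `m`: some three-dimensional convex polytope with exactly three faces at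
every vertex has `m` hexagonal faces and `p k` faces with `k` vertices for every `k ≠ 6`. -/
def Augmentable (p : ℕ → ℕ) (m : ℕ) : Prop :=
  ∃ P : Finset (EuclideanSpace ℝ (Fin 3)),
    (interior (convexHull ℝ (↑P : Set (EuclideanSpace ℝ (Fin 3))))).Nonempty ∧
    (∀ v ∈ Set.extremePoints ℝ (convexHull ℝ (↑P : Set (EuclideanSpace ℝ (Fin 3)))),
      {F | IsFace (convexHull ℝ (↑P : Set (EuclideanSpace ℝ (Fin 3)))) F ∧ v ∈ F}.ncard = 3) ∧
    (∀ k : ℕ, {F | IsFace (convexHull ℝ (↑P : Set (EuclideanSpace ℝ (Fin 3)))) F ∧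
      (Set.extremePoints ℝ F).ncard = k}.ncard = if k = 6 then m else p k)

/-- Every `n ≥ 3 S` whose parity is the parity of some admissible number of hexagons is itself
admissible. -/
theorem result (p : ℕ → ℕ) (N : ℕ) (h0 : ∀ k : ℕ, k < 3 ∨ k = 6 ∨ N ≤ k → p k = 0)
    (hE : 3 * p 3 + 2 * p 4 + p 5 = 12 + ∑ k ∈ Finset.Ico 7 N, (k - 6) * p k)
    (n : ℕ) (hn : 3 * (∑ k ∈ Finset.range N, p k) ≤ n)
    (hR : ∃ m : ℕ, m % 2 = n % 2 ∧ Augmentable p m) :
    Augmentable p n := by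
  obtain ⟨m, hm, h⟩ := hR
  exact Pool.Agent.P.MP_b50a78_co.main p N h0 hE n hn m hm h

end Pool.Agent.Results.MP_b50a78_co.ThreeS
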